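import Pool.Agent.R272.Conf.Path

set_option autoImplicit false

open Real

namespace Pool.Agent.R272.Liou

open Pool.Agent.R272.Conf (lap)

/-- the derivative of the developing map -/
noncomputable def ff (z : ℂ) : ℂ := Complex.exp (z / 2 + 2 * Complex.cosh z)

noncomputable def gg (z : ℂ) : ℂ :=
  Complex.exp (z / 2 + 2 * Complex.cosh z) * (1 / 2 + 2 * Complex.sinh z)

theorem hasDerivAt_ff (z : ℂ) : HasDerivAt ff (gg z) z :=
  (((hasDerivAt_id z).div_const 2).add ((Complex.hasDerivAt_cosh z).const_mul 2)).cexp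

theorem ff_anti (z : ℂ) : ff (z + 2 * π * Complex.I) = - ff z := by
  rw [ff, ff, Complex.cosh_periodic z]
  have : (z + 2 * π * Complex.I) / 2 + 2 * Complex.cosh z =
      (z / 2 + 2 * Complex.cosh z) + π * Complex.I := by ring
  rw [this, Complex.exp_add, Complex.exp_pi_mul_I]
  ring

theorem exists_F : ∃ F : ℂ → ℂ, (∀ z, HasDerivAt F (ff z) z) ∧
    ∀ z, F (z + 2 * π * Complex.I) = - F z := by
  have hd : Differentiable ℂ ff := fun z => (hasDerivAt_ff z).differentiableAt
  obtain ⟨F0, hF0⟩ := hd.isExactOn_univ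
  have hF : ∀ z, HasDerivAt F0 (ff z) z := fun z => hF0 z (Set.mem_univ z)
  have hK : ∀ z, HasDerivAt (fun z => F0 (z + 2 * π * Complex.I) + F0 z) 0 z := by
    intro z
    have h1 := ((hF (z + 2 * π * Complex.I)).comp_add_const z (2 * π * Complex.I))
    have h2 := h1.add (hF z)
    rw [ff_anti, neg_add_cancel] at h2
    exact h2
  have hconst : ∀ z, F0 (z + 2 * π * Complex.I) + F0 z = F0 (0 + 2 * π * Complex.I) + F0 0 :=
    fun z => is_const_of_deriv_eq_zero (fun z => (hK z).differentiableAt)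
      (fun z => (hK z).deriv) z 0
  set K := F0 (0 + 2 * π * Complex.I) + F0 0
  refine ⟨fun z => F0 z - K / 2, fun z => (hF z).sub_const _, fun z => ?_⟩
  have := hconst z
  simp only
  linear_combination this

/-- The solution. -/
noncomputable def uu (F : ℂ → ℂ) (z : ℝ × ℝ) : ℝ :=
  log 2 + (z.1 / 2 + 2 * cosh z.1 * cos z.2) -
    log (1 + ((F (z.1 + z.2 * Complex.I)).re ^ 2 + (F (z.1 + z.2 * Complex.I)).im ^ 2))

theorem contDiff_uu {F : ℂ → ℂ} (hF : ∀ z, HasDerivAt F (ff z) z) (n : WithTop ℕ∞) :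
    ContDiff ℝ n (uu F) := by
  have h1 : ContDiff ℂ n F := by
    have : Differentiable ℂ F := fun z => (hF z).differentiableAt
    exact this.contDiff
  have h2 : ContDiff ℝ n F := h1.restrict_scalars ℝ
  have h3 : ContDiff ℝ n (fun z : ℝ × ℝ => F (z.1 + z.2 * Complex.I)) := by
    refine h2.comp ?_
    have e1 : ContDiff ℝ n (fun z : ℝ × ℝ => (z.1 : ℂ)) :=
      Complex.ofRealCLM.contDiff.comp contDiff_fst
    have e2 : ContDiff ℝ n (fun z : ℝ × ℝ => (z.2 : ℂ)) :=
      Complex.ofRealCLM.contDiff.comp contDiff_snd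
    exact e1.add (e2.mul contDiff_const)
  have h4 : ContDiff ℝ n (fun z : ℝ × ℝ => (F (z.1 + z.2 * Complex.I)).re) :=
    Complex.reCLM.contDiff.comp h3
  have h5 : ContDiff ℝ n (fun z : ℝ × ℝ => (F (z.1 + z.2 * Complex.I)).im) :=
    Complex.imCLM.contDiff.comp h3
  have h6 : ContDiff ℝ n (fun z : ℝ × ℝ =>
      log (1 + ((F (z.1 + z.2 * Complex.I)).re ^ 2 + (F (z.1 + z.2 * Complex.I)).im ^ 2))) :=
    (contDiff_const.add ((h4.pow 2).add (h5.pow 2))).log (fun z => by positivity)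
  have h7 : ContDiff ℝ n (fun z : ℝ × ℝ => log 2 + (z.1 / 2 + 2 * cosh z.1 * cos z.2)) := by
    have := Real.contDiff_cosh (n := n)
    have := Real.contDiff_cos (n := n)
    fun_prop
  exact h7.sub h6

/-- abstract one-variable computation: derivative of `log (1 + P² + Q²)` -/
theorem deriv_logD {P Q : ℝ → ℝ} {p q t : ℝ} (hP : HasDerivAt P p t) (hQ : HasDerivAt Q q t) :
    HasDerivAt (fun s => log (1 + (P s ^ 2 + Q s ^ 2)))
      (2 * (P t * p + Q t * q) / (1 + (P t ^ 2 + Q t ^ 2))) t := by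
  have h := (((hP.pow 2).add (hQ.pow 2)).const_add 1).log
    (show (1 : ℝ) + (P t ^ 2 + Q t ^ 2) ≠ 0 by positivity)
  refine HasDerivAt.congr_deriv (f := fun s => log (1 + (P s ^ 2 + Q s ^ 2))) h ?_
  simp
  ring

theorem deriv2_logD {P Q p q : ℝ → ℝ} {p' q' t : ℝ} (hP : HasDerivAt P (p t) t)
    (hQ : HasDerivAt Q (q t) t) (hp : HasDerivAt p p' t) (hq : HasDerivAt q q' t) :
    HasDerivAt (fun s => 2 * (P s * p s + Q s * q s) / (1 + (P s ^ 2 + Q s ^ 2)))
      (2 * (p t ^ 2 + P t * p' + q t ^ 2 + Q t * q') / (1 + (P t ^ 2 + Q t ^ 2)) -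
        4 * (P t * p t + Q t * q t) ^ 2 / (1 + (P t ^ 2 + Q t ^ 2)) ^ 2) t := by
  have h1 := ((hP.mul hp).add (hQ.mul hq)).const_mul 2
  have h2 := ((hP.pow 2).add (hQ.pow 2)).const_add 1
  have h := h1.div h2 (show (1 : ℝ) + (P t ^ 2 + Q t ^ 2) ≠ 0 by positivity)
  refine HasDerivAt.congr_deriv
    (f := fun s => 2 * (P s * p s + Q s * q s) / (1 + (P s ^ 2 + Q s ^ 2))) h ?_
  have hD : 1 + (P t ^ 2 + Q t ^ 2) ≠ 0 := by positivity
  simp only [Pi.mul_apply, Pi.add_apply, Pi.pow_apply]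
  field_simp
  push_cast
  ring

theorem hasDerivAt_x {F f : ℂ → ℂ} (hF : ∀ z, HasDerivAt F (f z) z) (y s : ℝ) :
    HasDerivAt (fun t : ℝ => F (t + y * Complex.I)) (f (s + y * Complex.I)) s := by
  have h1 : HasDerivAt (fun t : ℂ => F (t + y * Complex.I)) (f (s + y * Complex.I)) (s : ℂ) :=
    (hF (s + y * Complex.I)).comp_add_const (s : ℂ) (y * Complex.I)
  exact h1.comp_ofReal

theorem hasDerivAt_y {F f : ℂ → ℂ} (hF : ∀ z, HasDerivAt F (f z) z) (x s : ℝ) :
    HasDerivAt (fun t : ℝ => F (x + t * Complex.I)) (f (x + s * Complex.I) * Complex.I) s := by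
  have h0 : HasDerivAt (fun t : ℂ => (x : ℂ) + t * Complex.I) (Complex.I) (s : ℂ) := by
    have := ((hasDerivAt_id (s : ℂ)).mul_const Complex.I).const_add (x : ℂ)
    refine HasDerivAt.congr_deriv (f := fun t : ℂ => (x : ℂ) + t * Complex.I) this ?_
    simp
  have h1 : HasDerivAt (fun t : ℂ => F (x + t * Complex.I)) (f (x + s * Complex.I) * Complex.I)
      (s : ℂ) := (hF (x + s * Complex.I)).comp (s : ℂ) h0
  exact h1.comp_ofReal

theorem re_deriv {h : ℝ → ℂ} {h' : ℂ} {t : ℝ} (hh : HasDerivAt h h' t) :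
    HasDerivAt (fun s => (h s).re) h'.re t :=
  (Complex.reCLM.hasFDerivAt.comp_hasDerivAt t hh)

theorem im_deriv {h : ℝ → ℂ} {h' : ℂ} {t : ℝ} (hh : HasDerivAt h h' t) :
    HasDerivAt (fun s => (h s).im) h'.im t :=
  (Complex.imCLM.hasFDerivAt.comp_hasDerivAt t hh)

theorem norm_ff (x y : ℝ) : (ff (x + y * Complex.I)).re ^ 2 + (ff (x + y * Complex.I)).im ^ 2 =
    exp (2 * (x / 2 + 2 * cosh x * cos y)) := by
  have h1 : ∀ w : ℂ, w.re ^ 2 + w.im ^ 2 = ‖w‖ ^ 2 := by
    intro w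
    rw [← Complex.normSq_eq_norm_sq, Complex.normSq_apply]; ring
  rw [h1, ff, Complex.norm_exp, ← exp_nat_mul]
  congr 1
  have : ((x + y * Complex.I) / 2 + 2 * Complex.cosh (x + y * Complex.I)).re =
      x / 2 + 2 * (cosh x * cos y) := by
    rw [Complex.cosh_add, Complex.cosh_mul_I, Complex.sinh_mul_I, ← Complex.ofReal_cosh,
      ← Complex.ofReal_sinh, ← Complex.ofReal_cos, ← Complex.ofReal_sin]
    simp
    left
    exact Complex.cos_ofReal_re y
  rw [this]
  push_cast
  ring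

theorem lap_uu {F : ℂ → ℂ} (hF : ∀ z, HasDerivAt F (ff z) z) (z : ℝ × ℝ) :
    lap (uu F) z + exp (2 * uu F z) = 0 := by
  obtain ⟨x, y⟩ := z
  -- first derivatives
  have d1 : (fun s : ℝ => deriv (fun t : ℝ => uu F (t, y)) s) = fun s : ℝ =>
      (1 / 2 + 2 * sinh s * cos y) -
      2 * ((F (s + y * Complex.I)).re * (ff (s + y * Complex.I)).re +
        (F (s + y * Complex.I)).im * (ff (s + y * Complex.I)).im) /
        (1 + ((F (s + y * Complex.I)).re ^ 2 + (F (s + y * Complex.I)).im ^ 2)) := by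
    funext s
    have e1 := deriv_logD (re_deriv (hasDerivAt_x hF y s)) (im_deriv (hasDerivAt_x hF y s))
    have e2 : HasDerivAt (fun t : ℝ => log 2 + (t / 2 + 2 * cosh t * cos y))
        (1 / 2 + 2 * sinh s * cos y) s :=
      (((hasDerivAt_id s).div_const 2).add
        (((Real.hasDerivAt_cosh s).const_mul 2).mul_const (cos y))).const_add (log 2)
    exact (e2.sub e1).deriv
  have d2 : (fun s : ℝ => deriv (fun t : ℝ => uu F (x, t)) s) = fun s : ℝ =>
      (2 * cosh x * (- sin s)) -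
      2 * ((F (x + s * Complex.I)).re * (ff (x + s * Complex.I) * Complex.I).re +
        (F (x + s * Complex.I)).im * (ff (x + s * Complex.I) * Complex.I).im) /
        (1 + ((F (x + s * Complex.I)).re ^ 2 + (F (x + s * Complex.I)).im ^ 2)) := by
    funext s
    have e1 := deriv_logD (re_deriv (hasDerivAt_y hF x s)) (im_deriv (hasDerivAt_y hF x s))
    have e2 : HasDerivAt (fun t : ℝ => log 2 + (x / 2 + 2 * cosh x * cos t))
        (2 * cosh x * (- sin s)) s :=
      ((((Real.hasDerivAt_cos s).const_mul (2 * cosh x))).const_add (x / 2)).const_add (log 2)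
    exact (e2.sub e1).deriv
  -- second derivatives
  have s1 := (deriv2_logD (re_deriv (hasDerivAt_x hF y x)) (im_deriv (hasDerivAt_x hF y x))
    (re_deriv (hasDerivAt_x hasDerivAt_ff y x)) (im_deriv (hasDerivAt_x hasDerivAt_ff y x)))
  have s2 := (deriv2_logD (re_deriv (hasDerivAt_y hF x y)) (im_deriv (hasDerivAt_y hF x y))
    (re_deriv ((hasDerivAt_y hasDerivAt_ff x y).mul_const Complex.I))
    (im_deriv ((hasDerivAt_y hasDerivAt_ff x y).mul_const Complex.I)))
  have e3 : HasDerivAt (fun t : ℝ => 1 / 2 + 2 * sinh t * cos y) (2 * cosh x * cos y) x :=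
    (((Real.hasDerivAt_sinh x).const_mul 2).mul_const (cos y)).const_add (1 / 2)
  have e4 : HasDerivAt (fun t : ℝ => 2 * cosh x * (- sin t)) (2 * cosh x * (- cos y)) y :=
    ((Real.hasDerivAt_sin y).neg).const_mul (2 * cosh x)
  have f1 := (e3.sub s1).deriv
  have f2 := (e4.sub s2).deriv
  have hexp : exp (2 * uu F (x, y)) = 4 * exp (2 * (x / 2 + 2 * cosh x * cos y)) /
      (1 + ((F (x + y * Complex.I)).re ^ 2 + (F (x + y * Complex.I)).im ^ 2)) ^ 2 := by
    rw [uu]
    simp only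
    rw [mul_sub, mul_add, exp_sub, exp_add]
    have g1 : exp (2 * log 2) = 4 := by
      rw [mul_comm, exp_mul, exp_log (by norm_num)]; norm_num
    have g2 : ∀ D : ℝ, 0 < D → exp (2 * log D) = D ^ 2 := by
      intro D hD
      rw [mul_comm, exp_mul, exp_log hD]; norm_num
    rw [g1, g2 _ (by positivity)]
  rw [lap, d1, d2, hexp, ← norm_ff]
  simp only
  have f1' : deriv (fun s : ℝ => (1 / 2 + 2 * sinh s * cos y) -
      2 * ((F (s + y * Complex.I)).re * (ff (s + y * Complex.I)).re +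
        (F (s + y * Complex.I)).im * (ff (s + y * Complex.I)).im) /
        (1 + ((F (s + y * Complex.I)).re ^ 2 + (F (s + y * Complex.I)).im ^ 2))) x = _ := f1
  have f2' : deriv (fun s : ℝ => (2 * cosh x * (- sin s)) -
      2 * ((F (x + s * Complex.I)).re * (ff (x + s * Complex.I) * Complex.I).re +
        (F (x + s * Complex.I)).im * (ff (x + s * Complex.I) * Complex.I).im) /
        (1 + ((F (x + s * Complex.I)).re ^ 2 + (F (x + s * Complex.I)).im ^ 2))) y = _ := f2
  rw [f1', f2']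
  simp only [Complex.mul_re, Complex.mul_im, Complex.I_re, Complex.I_im, mul_zero, mul_one,
    zero_sub, add_zero]
  generalize (F (x + y * Complex.I)).re = P
  generalize (F (x + y * Complex.I)).im = Q
  generalize (ff (x + y * Complex.I)).re = a
  generalize (ff (x + y * Complex.I)).im = b
  have hD : 1 + (P ^ 2 + Q ^ 2) ≠ 0 := by positivity
  field_simp
  ring

end Pool.Agent.R272.Liou
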