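import Pool.Agent.R272.Liou.Fn

set_option autoImplicit false

open Real MeasureTheory Set

namespace Pool.Agent.R272.Liou

open Pool.Agent.R272.Conf (lap PiecewiseC1 glength dg)

theorem ff_imag_re (y : ℝ) : (ff ((0 : ℝ) + y * Complex.I) * Complex.I).im =
    exp (2 * cos y) * cos (y / 2) := by
  rw [ff]
  have h : ((((0 : ℝ) : ℂ) + y * Complex.I) / 2 + 2 * Complex.cosh (((0 : ℝ) : ℂ) + y * Complex.I)) =
      ((2 * cos y : ℝ) : ℂ) + ((y / 2 : ℝ) : ℂ) * Complex.I := by
    rw [Complex.ofReal_zero, zero_add, Complex.cosh_mul_I, ← Complex.ofReal_cos]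
    push_cast
    ring
  rw [h, Complex.mul_im, Complex.I_re, Complex.I_im, Complex.exp_re, Complex.exp_im]
  have h1 : (((2 * cos y : ℝ) : ℂ) + ((y / 2 : ℝ) : ℂ) * Complex.I).re = 2 * cos y := by
    rw [Complex.add_re, Complex.re_ofReal_mul, Complex.ofReal_re, Complex.I_re]; ring
  have h2 : (((2 * cos y : ℝ) : ℂ) + ((y / 2 : ℝ) : ℂ) * Complex.I).im = y / 2 := by
    rw [Complex.add_im, Complex.im_ofReal_mul, Complex.ofReal_im, Complex.I_im]; ring
  rw [h1, h2]
  ring

theorem ff_line (x : ℝ) : ff (x + π * Complex.I) =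
    (exp (x / 2 - 2 * cosh x) : ℝ) * Complex.I := by
  rw [ff, Complex.cosh_add_pi_mul_I, ← Complex.ofReal_cosh]
  have : ((x + π * Complex.I) / 2 + 2 * -(cosh x : ℂ)) =
      ((x / 2 - 2 * cosh x : ℝ) : ℂ) + π / 2 * Complex.I := by
    push_cast; ring
  rw [this, Complex.exp_add, Complex.exp_pi_div_two_mul_I, Complex.ofReal_exp]

variable {F : ℂ → ℂ}

theorem im_F_pi (hF : ∀ z, HasDerivAt F (ff z) z)
    (ha : ∀ z, F (z + 2 * π * Complex.I) = - F z) :
    10 / 3 ≤ (F ((0 : ℝ) + π * Complex.I)).im := by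
  have hmono : MonotoneOn (fun y : ℝ => (F ((0 : ℝ) + y * Complex.I)).im -
      (6 * sin (y / 2) - 8 / 3 * sin (y / 2) ^ 3)) (Icc (-π) π) := by
    have hd : ∀ y : ℝ, HasDerivAt (fun y : ℝ => (F ((0 : ℝ) + y * Complex.I)).im -
      (6 * sin (y / 2) - 8 / 3 * sin (y / 2) ^ 3))
        (exp (2 * cos y) * cos (y / 2) - cos (y / 2) * (3 - 4 * sin (y / 2) ^ 2)) y := by
      intro y
      have h1 := im_deriv (hasDerivAt_y hF 0 y)
      rw [ff_imag_re] at h1
      have h2 : HasDerivAt (fun y : ℝ => sin (y / 2)) (cos (y / 2) * (1 / 2)) y :=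
        ((hasDerivAt_id y).div_const 2).sin
      have h3 := (h2.const_mul 6).sub ((h2.pow 3).const_mul (8 / 3))
      refine HasDerivAt.congr_deriv (f := fun y : ℝ => (F ((0 : ℝ) + y * Complex.I)).im -
        (6 * sin (y / 2) - 8 / 3 * sin (y / 2) ^ 3)) (h1.sub h3) ?_
      push_cast
      ring
    apply monotoneOn_of_deriv_nonneg (convex_Icc _ _)
    · exact fun y _ => (hd y).continuousAt.continuousWithinAt
    · exact fun y _ => (hd y).differentiableAt.differentiableWithinAt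
    · intro y hy
      rw [interior_Icc] at hy
      rw [(hd y).deriv]
      have hc : 0 ≤ cos (y / 2) := cos_nonneg_of_mem_Icc ⟨by linarith [hy.1], by linarith [hy.2]⟩
      have he : 3 - 4 * sin (y / 2) ^ 2 ≤ exp (2 * cos y) := by
        have h1 := add_one_le_exp (2 * cos y)
        have h2 : cos y = 1 - 2 * sin (y / 2) ^ 2 := by
          have h3 := cos_two_mul (y / 2)
          have h4 := sin_sq_add_cos_sq (y / 2)
          have h5 : 2 * (y / 2) = y := by ring
          rw [h5] at h3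
          rw [h3]; linarith
        rw [h2] at h1 ⊢
        linarith
      nlinarith [mul_le_mul_of_nonneg_left he hc]
  have hm := hmono (left_mem_Icc.mpr (by linarith [pi_pos])) (right_mem_Icc.mpr (by linarith [pi_pos]))
    (by linarith [pi_pos])
  have hanti : F ((0 : ℝ) + π * Complex.I) = - F ((0 : ℝ) + ((-π : ℝ) : ℂ) * Complex.I) := by
    rw [← ha]; congr 1; push_cast; ring
  have h0 : (F ((0 : ℝ) + ((-π : ℝ) : ℂ) * Complex.I)).im = - (F ((0 : ℝ) + π * Complex.I)).im := by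
    rw [hanti, Complex.neg_im, neg_neg]
  have e1 : sin (-π / 2) = -1 := by
    rw [neg_div, sin_neg, sin_pi_div_two]
  simp only at hm
  rw [h0, e1, sin_pi_div_two] at hm
  linarith

theorem line_deriv (hF : ∀ z, HasDerivAt F (ff z) z) (x : ℝ) :
    HasDerivAt (fun x : ℝ => (F (x + π * Complex.I)).im) (exp (x / 2 - 2 * cosh x)) x := by
  have h := im_deriv (hasDerivAt_x hF π x)
  rw [ff_line, Complex.im_ofReal_mul, Complex.I_im, mul_one] at h
  exact h

theorem line_deriv_re (hF : ∀ z, HasDerivAt F (ff z) z) (x : ℝ) :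
    HasDerivAt (fun x : ℝ => (F (x + π * Complex.I)).re) 0 x := by
  have h := re_deriv (hasDerivAt_x hF π x)
  rw [ff_line, Complex.re_ofReal_mul, Complex.I_re, mul_zero] at h
  exact h

theorem line_re (hF : ∀ z, HasDerivAt F (ff z) z) (x : ℝ) :
    (F (x + π * Complex.I)).re = (F ((0 : ℝ) + π * Complex.I)).re :=
  is_const_of_deriv_eq_zero (fun z => (line_deriv_re hF z).differentiableAt)
      (fun z => (line_deriv_re hF z).deriv) x 0

theorem line_im (hF : ∀ z, HasDerivAt F (ff z) z)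
    (ha : ∀ z, F (z + 2 * π * Complex.I) = - F z) (x : ℝ) :
    1 ≤ (F (x + π * Complex.I)).im ∧
      (F (x + π * Complex.I)).im ≤ (F ((0 : ℝ) + π * Complex.I)).im + 2 := by
  have hpi := im_F_pi hF ha
  have hmono : Monotone (fun x : ℝ => (F (x + π * Complex.I)).im) :=
    monotone_of_deriv_nonneg (fun x => (line_deriv hF x).differentiableAt)
      (fun x => by rw [(line_deriv hF x).deriv]; positivity)
  have hd1 : ∀ x : ℝ, HasDerivAt (fun x : ℝ => (F (x + π * Complex.I)).im - 2 * exp (x / 2))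
      (exp (x / 2 - 2 * cosh x) - exp (x / 2)) x := by
    intro x
    have := (line_deriv hF x).sub ((((hasDerivAt_id x).div_const 2).exp).const_mul 2)
    refine HasDerivAt.congr_deriv (f := fun x : ℝ => (F (x + π * Complex.I)).im - 2 * exp (x / 2))
      this ?_
    simp only [id]
    ring
  have hd2 : ∀ x : ℝ, HasDerivAt (fun x : ℝ => (F (x + π * Complex.I)).im + 2 * exp (-(x / 2)))
      (exp (x / 2 - 2 * cosh x) - exp (-(x / 2))) x := by
    intro x
    have := (line_deriv hF x).add (((((hasDerivAt_id x).div_const 2).neg).exp).const_mul 2)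
    refine HasDerivAt.congr_deriv (f := fun x : ℝ => (F (x + π * Complex.I)).im +
      2 * exp (-(x / 2))) this ?_
    simp only [id, Pi.neg_apply]
    ring
  have ha1 : Antitone (fun x : ℝ => (F (x + π * Complex.I)).im - 2 * exp (x / 2)) :=
    antitone_of_deriv_nonpos (fun x => (hd1 x).differentiableAt) (fun x => by
      rw [(hd1 x).deriv]
      have : exp (x / 2 - 2 * cosh x) ≤ exp (x / 2) :=
        exp_le_exp.mpr (by linarith [cosh_pos x])
      linarith)
  have ha2 : Antitone (fun x : ℝ => (F (x + π * Complex.I)).im + 2 * exp (-(x / 2))) :=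
    antitone_of_deriv_nonpos (fun x => (hd2 x).differentiableAt) (fun x => by
      rw [(hd2 x).deriv]
      have h2 : x ≤ 2 * cosh x := by
        rw [cosh_eq]
        have := add_one_le_exp x
        have := exp_pos (-x)
        linarith
      have : exp (x / 2 - 2 * cosh x) ≤ exp (-(x / 2)) :=
        exp_le_exp.mpr (by linarith)
      linarith)
  rcases le_total x 0 with hx | hx
  · refine ⟨?_, ?_⟩
    · have := ha1 hx
      simp only [zero_div, exp_zero, mul_one] at this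
      have := exp_pos (x / 2)
      linarith
    · have := hmono hx
      simp only at this
      linarith
  · refine ⟨?_, ?_⟩
    · have := hmono hx
      simp only at this
      linarith
    · have := ha2 hx
      simp only [zero_div, neg_zero, exp_zero, mul_one] at this
      have := exp_pos (-(x / 2))
      linarith

/-- stereographic coordinate -/
noncomputable def YY (w : ℂ) : ℝ := 2 * w.im / (1 + (w.re ^ 2 + w.im ^ 2))

theorem YY_neg (w : ℂ) : YY (-w) = - YY w := by
  rw [YY, YY, Complex.neg_re, Complex.neg_im]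
  ring

theorem exists_c (hF : ∀ z, HasDerivAt F (ff z) z)
    (ha : ∀ z, F (z + 2 * π * Complex.I) = - F z) :
    ∃ c : ℝ, 0 < c ∧ ∀ x : ℝ, c ≤ YY (F (x + π * Complex.I)) := by
  refine ⟨2 / (1 + ((F ((0 : ℝ) + π * Complex.I)).re ^ 2 +
    ((F ((0 : ℝ) + π * Complex.I)).im + 2) ^ 2)), by positivity, fun x => ?_⟩
  obtain ⟨h1, h2⟩ := line_im hF ha x
  rw [YY, line_re hF x]
  have h3 : 0 ≤ (F (x + π * Complex.I)).im := by linarith
  apply div_le_div₀
  · linarith
  · linarith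
  · positivity
  · gcongr

theorem YY_line
    (ha : ∀ z, F (z + 2 * π * Complex.I) = - F z) (k : ℕ) (x : ℝ) :
    YY (F (x + ((2 * k + 1) * π : ℝ) * Complex.I)) = (-1) ^ k * YY (F (x + π * Complex.I)) := by
  induction k with
  | zero => simp
  | succ k ih =>
    have : (x : ℂ) + ((2 * ((k + 1 : ℕ) : ℝ) + 1) * π : ℝ) * Complex.I =
        (x + ((2 * k + 1) * π : ℝ) * Complex.I) + 2 * π * Complex.I := by
      push_cast; ring
    rw [this, ha, YY_neg, ih]
    ring

/-- differential of `YY ∘ F` -/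
noncomputable def dY (F : ℂ → ℂ) (p : (ℝ × ℝ) × (ℝ × ℝ)) : ℝ :=
  (2 * (ff (p.1.1 + p.1.2 * Complex.I) * (p.2.1 + p.2.2 * Complex.I)).im *
      (1 + ((F (p.1.1 + p.1.2 * Complex.I)).re ^ 2 + (F (p.1.1 + p.1.2 * Complex.I)).im ^ 2)) -
    2 * (F (p.1.1 + p.1.2 * Complex.I)).im *
      (2 * (F (p.1.1 + p.1.2 * Complex.I)).re *
        (ff (p.1.1 + p.1.2 * Complex.I) * (p.2.1 + p.2.2 * Complex.I)).re +
       2 * (F (p.1.1 + p.1.2 * Complex.I)).im *
        (ff (p.1.1 + p.1.2 * Complex.I) * (p.2.1 + p.2.2 * Complex.I)).im)) /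
  (1 + ((F (p.1.1 + p.1.2 * Complex.I)).re ^ 2 + (F (p.1.1 + p.1.2 * Complex.I)).im ^ 2)) ^ 2

theorem continuous_dY (hF : ∀ z, HasDerivAt F (ff z) z) : Continuous (dY F) := by
  have hFc : Continuous F := continuous_iff_continuousAt.mpr (fun z => (hF z).continuousAt)
  have hfc : Continuous ff := continuous_iff_continuousAt.mpr (fun z => (hasDerivAt_ff z).continuousAt)
  have a1 : Continuous (fun p : (ℝ × ℝ) × (ℝ × ℝ) => F (p.1.1 + p.1.2 * Complex.I)) := by fun_prop
  have a2 : Continuous (fun p : (ℝ × ℝ) × (ℝ × ℝ) =>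
    ff (p.1.1 + p.1.2 * Complex.I) * (p.2.1 + p.2.2 * Complex.I)) := by fun_prop
  have b1 := Complex.continuous_re.comp a1
  have b2 := Complex.continuous_im.comp a1
  have b3 := Complex.continuous_re.comp a2
  have b4 := Complex.continuous_im.comp a2
  simp only [Function.comp_def] at b1 b2 b3 b4
  unfold dY
  refine Continuous.div ?_ ?_ (fun p => by positivity)
  · fun_prop
  · fun_prop

theorem hasDerivAt_YY (hF : ∀ z, HasDerivAt F (ff z) z) {γ : ℝ → ℝ × ℝ} {v : ℝ × ℝ} {t : ℝ}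
    (h : HasDerivAt γ v t) :
    HasDerivAt (fun s => YY (F ((γ s).1 + (γ s).2 * Complex.I))) (dY F (γ t, v)) t := by
  have h1' : HasDerivAt (fun s => (γ s).1) v.1 t := h.fst
  have h2' : HasDerivAt (fun s => (γ s).2) v.2 t := h.snd
  have h1 : HasDerivAt (fun s => ((γ s).1 : ℂ)) (v.1 : ℂ) t := h1'.ofReal_comp
  have h2 : HasDerivAt (fun s => ((γ s).2 : ℂ)) (v.2 : ℂ) t := h2'.ofReal_comp
  have h3 : HasDerivAt (fun s => ((γ s).1 : ℂ) + (γ s).2 * Complex.I) (v.1 + v.2 * Complex.I) t :=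
    h1.add (h2.mul_const Complex.I)
  have h4 : HasDerivAt (fun s => F ((γ s).1 + (γ s).2 * Complex.I))
      (ff ((γ t).1 + (γ t).2 * Complex.I) * (v.1 + v.2 * Complex.I)) t := by
    have := (hF ((γ t).1 + (γ t).2 * Complex.I)).scomp t h3
    rw [smul_eq_mul, mul_comm] at this
    exact this
  have hre := re_deriv h4
  have him := im_deriv h4
  have hD := ((hre.pow 2).add (him.pow 2)).const_add 1
  have h5 := (him.const_mul 2).div hD
    (show (1 : ℝ) + ((F ((γ t).1 + (γ t).2 * Complex.I)).re ^ 2 +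
      (F ((γ t).1 + (γ t).2 * Complex.I)).im ^ 2) ≠ 0 by positivity)
  refine HasDerivAt.congr_deriv (f := fun s => YY (F ((γ s).1 + (γ s).2 * Complex.I))) h5 ?_
  rw [dY]
  simp only [Pi.add_apply, Pi.pow_apply]
  congr 1
  push_cast
  ring

theorem exp_two_uu (z : ℝ × ℝ) : exp (uu F z) ^ 2 =
    4 * ((ff (z.1 + z.2 * Complex.I)).re ^ 2 + (ff (z.1 + z.2 * Complex.I)).im ^ 2) /
      (1 + ((F (z.1 + z.2 * Complex.I)).re ^ 2 + (F (z.1 + z.2 * Complex.I)).im ^ 2)) ^ 2 := by
  have g0 : exp (uu F z) = 2 * exp (z.1 / 2 + 2 * cosh z.1 * cos z.2) /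
      (1 + ((F (z.1 + z.2 * Complex.I)).re ^ 2 + (F (z.1 + z.2 * Complex.I)).im ^ 2)) := by
    rw [uu, exp_sub, exp_add, exp_log (by positivity), exp_log (by positivity)]
  rw [g0, norm_ff, div_pow, mul_pow, ← exp_nat_mul]
  norm_num

theorem dY_le (z v : ℝ × ℝ) :
    |dY F (z, v)| ≤ exp (uu F z) * √(v.1 ^ 2 + v.2 ^ 2) := by
  apply abs_le_of_sq_le_sq _ (by positivity)
  rw [mul_pow, sq_sqrt (by positivity), exp_two_uu, dY]
  simp only [Complex.mul_re, Complex.mul_im, Complex.add_re, Complex.add_im, Complex.ofReal_re,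
    Complex.ofReal_im, Complex.I_re, Complex.I_im, mul_zero, mul_one, zero_add, add_zero, sub_self]
  generalize (F (z.1 + z.2 * Complex.I)).re = P
  generalize (F (z.1 + z.2 * Complex.I)).im = Q
  generalize (ff (z.1 + z.2 * Complex.I)).re = a
  generalize (ff (z.1 + z.2 * Complex.I)).im = b
  generalize v.1 = m
  generalize v.2 = n
  have hD : 0 < 1 + (P ^ 2 + Q ^ 2) := by positivity
  rw [div_pow, div_mul_eq_mul_div, div_le_div_iff₀ (by positivity) (by positivity)]
  have key : (2 * (a * n + b * m) * (1 + (P ^ 2 + Q ^ 2)) -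
      2 * Q * (2 * P * (a * m - b * n) + 2 * Q * (a * n + b * m))) ^ 2 ≤
      4 * (a ^ 2 + b ^ 2) * (m ^ 2 + n ^ 2) * (1 + (P ^ 2 + Q ^ 2)) ^ 2 := by
    have e1 : (a ^ 2 + b ^ 2) * (m ^ 2 + n ^ 2) = (a * n + b * m) ^ 2 + (a * m - b * n) ^ 2 := by ring
    rw [mul_assoc 4, e1]
    generalize a * n + b * m = X
    generalize a * m - b * n = W
    have : 4 * (X ^ 2 + W ^ 2) * (1 + (P ^ 2 + Q ^ 2)) ^ 2 -
        (2 * X * (1 + (P ^ 2 + Q ^ 2)) - 2 * Q * (2 * P * W + 2 * Q * X)) ^ 2 =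
        4 * ((W * (1 + P ^ 2 - Q ^ 2) + 2 * P * Q * X) ^ 2 + 4 * Q ^ 2 * (X ^ 2 + W ^ 2)) := by ring
    have h0 : 0 ≤ 4 * ((W * (1 + P ^ 2 - Q ^ 2) + 2 * P * Q * X) ^ 2 + 4 * Q ^ 2 * (X ^ 2 + W ^ 2)) := by
      positivity
    linarith
  have h2 := mul_le_mul_of_nonneg_right key (show 0 ≤ (1 + (P ^ 2 + Q ^ 2)) ^ 2 by positivity)
  nlinarith

theorem seg_le (hF : ∀ z, HasDerivAt F (ff z) z) {γ : ℝ → ℝ × ℝ}
    (h : PiecewiseC1 γ) {a b : ℝ} (ha : 0 ≤ a) (hab : a ≤ b) (hb : b ≤ 1) :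
    |YY (F ((γ b).1 + (γ b).2 * Complex.I)) - YY (F ((γ a).1 + (γ a).2 * Complex.I))| ≤
      ∫ t in a..b, exp (uu F (γ t)) * √((deriv γ t).1 ^ 2 + (deriv γ t).2 ^ 2) := by
  obtain ⟨s, hs, hds⟩ := h.hasDerivAt
  have hsub : Icc a b ⊆ Icc 0 1 := Icc_subset_Icc ha hb
  have hint := h.intervalIntegrable' (continuous_dY hF) ha hab hb
  have hH : Continuous (fun p : (ℝ × ℝ) × (ℝ × ℝ) => exp (uu F p.1) * √(p.2.1 ^ 2 + p.2.2 ^ 2)) := by
    have := (contDiff_uu hF 0).continuous
    fun_prop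
  have hint2 := h.intervalIntegrable' hH ha hab hb
  have hPc : Continuous (fun z : ℝ × ℝ => YY (F (z.1 + z.2 * Complex.I))) := by
    have hFc : Continuous F := continuous_iff_continuousAt.mpr (fun z => (hF z).continuousAt)
    have a1 : Continuous (fun p : ℝ × ℝ => F (p.1 + p.2 * Complex.I)) := by fun_prop
    have b1 := Complex.continuous_re.comp a1
    have b2 := Complex.continuous_im.comp a1
    simp only [Function.comp_def] at b1 b2
    unfold YY
    refine Continuous.div ?_ ?_ (fun p => by positivity)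
    · fun_prop
    · fun_prop
  have hftc := integral_eq_of_hasDerivAt_off_countable_of_le
    (fun t => YY (F ((γ t).1 + (γ t).2 * Complex.I)))
    (fun t => dY F (γ t, deriv γ t)) hab hs (hPc.comp_continuousOn (h.1.mono hsub))
    (fun x hx => hasDerivAt_YY hF (hds x ⟨⟨lt_of_le_of_lt ha hx.1.1, lt_of_lt_of_le hx.1.2 hb⟩, hx.2⟩))
    hint
  rw [← hftc]
  calc |∫ t in a..b, dY F (γ t, deriv γ t)| ≤ ∫ t in a..b, |dY F (γ t, deriv γ t)| :=
        intervalIntegral.abs_integral_le_integral_abs hab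
    _ ≤ _ := by
      apply intervalIntegral.integral_mono_on_of_le_Ioo hab hint.abs hint2
      intro t ht
      exact dY_le (γ t) (deriv γ t)

theorem length_ind (hF : ∀ z, HasDerivAt F (ff z) z)
    (hanti : ∀ z, F (z + 2 * π * Complex.I) = - F z) {c : ℝ}
    (hline : ∀ x : ℝ, c ≤ YY (F (x + π * Complex.I))) {γ : ℝ → ℝ × ℝ}
    (h : PiecewiseC1 γ) (n : ℕ) : ∀ (k : ℕ) (a : ℝ), 0 ≤ a → a ≤ 1 →
      (γ a).2 = (2 * k + 1) * π → (γ 1).2 = (2 * (k + n : ℕ) + 1) * π →
      2 * c * n ≤ ∫ t in a..1, exp (uu F (γ t)) * √((deriv γ t).1 ^ 2 + (deriv γ t).2 ^ 2) := by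
  have hH : Continuous (fun p : (ℝ × ℝ) × (ℝ × ℝ) => exp (uu F p.1) * √(p.2.1 ^ 2 + p.2.2 ^ 2)) := by
    have := (contDiff_uu hF 0).continuous
    fun_prop
  induction n with
  | zero =>
    intro k a ha0 ha1 _ _
    simp only [Nat.cast_zero, mul_zero]
    exact intervalIntegral.integral_nonneg ha1 (fun t _ => by positivity)
  | succ n ih =>
    intro k a ha0 ha1 hka hk1
    -- intermediate value
    have hcont : ContinuousOn (fun t => (γ t).2) (Icc a 1) :=
      continuous_snd.comp_continuousOn (h.1.mono (Icc_subset_Icc ha0 le_rfl))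
    have hmem : (2 * ((k + 1 : ℕ) : ℝ) + 1) * π ∈ Icc ((γ a).2) ((γ 1).2) := by
      rw [hka, hk1]
      constructor
      · push_cast; nlinarith [pi_pos]
      · push_cast
        have : (0 : ℝ) ≤ n := Nat.cast_nonneg n
        nlinarith [pi_pos]
    obtain ⟨b, hb, hbv⟩ := intermediate_value_Icc ha1 hcont hmem
    have hb' := ih (k + 1) b (ha0.trans hb.1) hb.2 hbv (by rw [hk1]; push_cast; ring)
    have hseg := seg_le hF h ha0 hb.1 hb.2
    simp only at hbv
    rw [hbv, hka] at hseg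
    rw [YY_line hanti, YY_line hanti] at hseg
    have y1 := hline (γ b).1
    have y2 := hline (γ a).1
    have habs : 2 * c ≤ |(-1 : ℝ) ^ (k + 1) * YY (F ((γ b).1 + π * Complex.I)) -
        (-1) ^ k * YY (F ((γ a).1 + π * Complex.I))| := by
      have e : (-1 : ℝ) ^ (k + 1) * YY (F ((γ b).1 + π * Complex.I)) -
        (-1) ^ k * YY (F ((γ a).1 + π * Complex.I)) = (-1) ^ k *
          (-(YY (F ((γ b).1 + π * Complex.I)) + YY (F ((γ a).1 + π * Complex.I)))) := by ring
      rw [e, abs_mul, abs_pow, abs_neg, abs_one, one_pow, one_mul, abs_neg]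
      exact le_trans (by linarith) (le_abs_self _)
    have i1 := h.intervalIntegrable' hH ha0 hb.1 hb.2
    have i2 := h.intervalIntegrable' hH (ha0.trans hb.1) hb.2 le_rfl
    rw [← intervalIntegral.integral_add_adjacent_intervals i1 i2]
    push_cast
    linarith

theorem dg_ge (hF : ∀ z, HasDerivAt F (ff z) z)
    (hanti : ∀ z, F (z + 2 * π * Complex.I) = - F z) {c : ℝ}
    (hline : ∀ x : ℝ, c ≤ YY (F (x + π * Complex.I))) (n : ℕ) :
    2 * c * n ≤ dg (uu F) (0, π) (0, (2 * n + 1) * π) := by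
  apply le_csInf
  · refine ⟨_, fun t => (0, π + 2 * n * π * t), ?_, by simp, by simp; ring, rfl⟩
    have hC : ContDiff ℝ 1 (fun t : ℝ => ((0, π + 2 * n * π * t) : ℝ × ℝ)) := by fun_prop
    refine ⟨hC.continuous.continuousOn, 1, fun i => i, by simp, by simp, ?_, ?_⟩
    · intro i _; push_cast; linarith
    · intro i _; exact hC.contDiffOn
  · rintro L ⟨γ, hγ, h0, h1, rfl⟩
    exact length_ind hF hanti hline hγ n 0 0 le_rfl zero_le_one (by rw [h0]; simp)
      (by rw [h1]; simp)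

end Pool.Agent.R272.Liou
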